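import Pool.Agent.W326.DU.Stm
import Pool.Agent.W386.FPs

/-!
# Alternating functions with values in a submodule (HC, job Q3 of helper379)
-/

set_option autoImplicit false

namespace Pool.Agent.Helper534_HC

open Pool.Agent.W326.DU Pool.Agent.W386

section Alt
variable {R : Type} [Ring R] {M V : Type} [AddCommGroup M] [Module R M]

/-- alternating 2-functions with values in `N` -/
def Alt2 (ad : V → V → Prop) (N : Submodule R M) : Submodule R (V → V → M) where
  carrier := {z | IsAlt2 ad Set.univ z ∧ ∀ a b, z a b ∈ N}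
  zero_mem' := ⟨⟨fun a b => by simp, fun a b _ => rfl⟩, fun a b => N.zero_mem⟩
  add_mem' := by
    rintro x y ⟨⟨hx1, hx2⟩, hx3⟩ ⟨⟨hy1, hy2⟩, hy3⟩
    refine ⟨⟨fun a b => ?_, fun a b hab => ?_⟩, fun a b => N.add_mem (hx3 a b) (hy3 a b)⟩
    · show x a b + y a b = -(x b a + y b a)
      rw [hx1 a b, hy1 a b, neg_add]
    · show x a b + y a b = 0
      rw [hx2 a b hab, hy2 a b hab, add_zero]
  smul_mem' := by
    rintro c x ⟨⟨hx1, hx2⟩, hx3⟩
    refine ⟨⟨fun a b => ?_, fun a b hab => ?_⟩, fun a b => N.smul_mem c (hx3 a b)⟩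
    · show c • x a b = -(c • x b a)
      rw [hx1 a b, smul_neg]
    · show c • x a b = 0
      rw [hx2 a b hab, smul_zero]

/-- alternating 3-functions with values in `N` -/
def Alt3 (ad : V → V → Prop) (N : Submodule R M) : Submodule R (V → V → V → M) where
  carrier := {z | IsAlt3 ad Set.univ z ∧ ∀ a b c, z a b c ∈ N}
  zero_mem' := ⟨⟨fun a b c => by simp, fun a b c => by simp, fun a b c _ => rfl⟩,
    fun a b c => N.zero_mem⟩
  add_mem' := by
    rintro x y ⟨⟨hx1, hx2, hx3⟩, hx4⟩ ⟨⟨hy1, hy2, hy3⟩, hy4⟩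
    refine ⟨⟨fun a b c => ?_, fun a b c => ?_, fun a b c hab => ?_⟩,
      fun a b c => N.add_mem (hx4 a b c) (hy4 a b c)⟩
    · show x a b c + y a b c = -(x b a c + y b a c)
      rw [hx1 a b c, hy1 a b c, neg_add]
    · show x a b c + y a b c = -(x a c b + y a c b)
      rw [hx2 a b c, hy2 a b c, neg_add]
    · show x a b c + y a b c = 0
      rw [hx3 a b c hab, hy3 a b c hab, add_zero]
  smul_mem' := by
    rintro r x ⟨⟨hx1, hx2, hx3⟩, hx4⟩
    refine ⟨⟨fun a b c => ?_, fun a b c => ?_, fun a b c hab => ?_⟩,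
      fun a b c => N.smul_mem r (hx4 a b c)⟩
    · show r • x a b c = -(r • x b a c)
      rw [hx1 a b c, smul_neg]
    · show r • x a b c = -(r • x a c b)
      rw [hx2 a b c, smul_neg]
    · show r • x a b c = 0
      rw [hx3 a b c hab, smul_zero]

open Classical in
/-- the alternating function of a function on the sorted edges -/
noncomputable def mk2 (ad : V → V → Prop) (r : V → ℕ) (N : Submodule R M)
    (f : {p : V × V // r p.1 < r p.2 ∧ ad p.1 p.2} → N) (a b : V) : M :=
  if h : r a < r b ∧ ad a b then (f ⟨(a, b), h⟩ : M)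
  else if h : r b < r a ∧ ad b a then - (f ⟨(b, a), h⟩ : M) else 0

theorem mk2_mem (ad : V → V → Prop) (hsymm : ∀ a b, ad a b → ad b a)
    (r : V → ℕ) (N : Submodule R M)
    (f : {p : V × V // r p.1 < r p.2 ∧ ad p.1 p.2} → N) : mk2 ad r N f ∈ Alt2 ad N := by
  refine ⟨⟨fun a b => ?_, fun a b hab => ?_⟩, fun a b => ?_⟩
  · unfold mk2
    by_cases h1 : r a < r b ∧ ad a b
    · have h2 : ¬ (r b < r a ∧ ad b a) := fun h => by omega
      rw [dif_pos h1, dif_neg h2, dif_pos h1, neg_neg]
    · by_cases h2 : r b < r a ∧ ad b a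
      · rw [dif_neg h1, dif_pos h2, dif_pos h2]
      · rw [dif_neg h1, dif_neg h2, dif_neg h2, dif_neg h1, neg_zero]
  · have h3 : ¬ ad a b := fun h => hab ⟨trivial, trivial, h⟩
    have h4 : ¬ ad b a := fun h => h3 (hsymm _ _ h)
    unfold mk2
    rw [dif_neg (fun h => h3 h.2), dif_neg (fun h => h4 h.2)]
  · unfold mk2
    split_ifs
    · exact (f _).2
    · exact N.neg_mem (f _).2
    · exact N.zero_mem

/-- alternating 2-functions are functions on the sorted edges -/
noncomputable def alt2Equiv (ad : V → V → Prop) (hsymm : ∀ a b, ad a b → ad b a)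
    (hirr : ∀ a, ¬ ad a a) (r : V → ℕ) (hr : Function.Injective r) (N : Submodule R M) :
    Alt2 ad N ≃ₗ[R] ({p : V × V // r p.1 < r p.2 ∧ ad p.1 p.2} → N) where
  toFun z p := ⟨z.1 p.1.1 p.1.2, z.2.2 _ _⟩
  map_add' x y := rfl
  map_smul' c x := rfl
  invFun f := ⟨mk2 ad r N f, mk2_mem ad hsymm r N f⟩
  left_inv z := by
    obtain ⟨z, ⟨h1, h2⟩, h3⟩ := z
    apply Subtype.ext
    funext a b
    show mk2 ad r N (fun p => ⟨z p.1.1 p.1.2, h3 _ _⟩) a b = z a b
    unfold mk2
    by_cases h4 : r a < r b ∧ ad a b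
    · rw [dif_pos h4]
    · by_cases h5 : r b < r a ∧ ad b a
      · rw [dif_neg h4, dif_pos h5]
        exact (h1 a b).symm
      · rw [dif_neg h4, dif_neg h5]
        symm
        apply h2
        rintro ⟨_, _, h6⟩
        have h7 : a ≠ b := fun h => hirr a (by rw [← h] at h6; exact h6)
        have h8 : r a ≠ r b := fun h => h7 (hr h)
        rcases lt_or_gt_of_ne h8 with h9 | h9
        · exact h4 ⟨h9, h6⟩
        · exact h5 ⟨h9, hsymm _ _ h6⟩
  right_inv f := by
    funext ⟨⟨a, b⟩, h⟩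
    apply Subtype.ext
    show mk2 ad r N f a b = _
    unfold mk2
    rw [dif_pos h]

theorem alt2_fgf [Finite V] (ad : V → V → Prop) (hsymm : ∀ a b, ad a b → ad b a)
    (hirr : ∀ a, ¬ ad a a) (N : Submodule R M) (hN : FGF R N) : FGF R (Alt2 ad N) := by
  obtain ⟨n, ⟨e⟩⟩ := Finite.exists_equiv_fin V
  have hr : Function.Injective (fun v => ((e v : Fin n) : ℕ)) :=
    Fin.val_injective.comp e.injective
  exact (FGF.pi (ι := {p : V × V // ((e p.1 : Fin n) : ℕ) < ((e p.2 : Fin n) : ℕ) ∧ ad p.1 p.2})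
    hN).equiv (alt2Equiv ad hsymm hirr _ hr N).symm

open Classical in
/-- restriction to the sorted cliques -/
noncomputable def srt (ad : V → V → Prop) (r : V → ℕ) (f : V × V × V → M) (a b c : V) : M :=
  if (r a < r b ∧ r b < r c) ∧ (ad a b ∧ ad b c ∧ ad a c) then f (a, b, c) else 0

/-- antisymmetrization -/
noncomputable def asy (ad : V → V → Prop) (r : V → ℕ) (f : V × V × V → M) (a b c : V) : M :=
  srt ad r f a b c - srt ad r f b a c - srt ad r f a c b - srt ad r f c b a
    + srt ad r f b c a + srt ad r f c a b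

theorem srt_zero (ad : V → V → Prop) (r : V → ℕ) (f : V × V × V → M) (a b c : V)
    (h : ¬ (ad a b ∧ ad b c ∧ ad a c)) : srt ad r f a b c = 0 := by
  unfold srt
  rw [if_neg (fun h' => h h'.2)]

theorem srt_ord (ad : V → V → Prop) (r : V → ℕ) (f : V × V × V → M) (a b c : V)
    (h : ¬ (r a < r b ∧ r b < r c)) : srt ad r f a b c = 0 := by
  unfold srt
  rw [if_neg (fun h' => h h'.1)]

theorem srt_pos (ad : V → V → Prop) (r : V → ℕ) (f : V × V × V → M) (a b c : V)
    (h : r a < r b ∧ r b < r c) (h' : ad a b ∧ ad b c ∧ ad a c) :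
    srt ad r f a b c = f (a, b, c) := by
  unfold srt
  rw [if_pos ⟨h, h'⟩]

theorem asy_mem (ad : V → V → Prop) (hsymm : ∀ a b, ad a b → ad b a) (r : V → ℕ)
    (N : Submodule R M) (f : V × V × V → M) (hf : ∀ p, f p ∈ N) : asy ad r f ∈ Alt3 ad N := by
  have hs : ∀ a b c, srt ad r f a b c ∈ N := by
    intro a b c
    unfold srt
    split_ifs
    · exact hf _
    · exact N.zero_mem
  refine ⟨⟨fun a b c => ?_, fun a b c => ?_, fun a b c hab => ?_⟩, fun a b c => ?_⟩
  · unfold asy; abel
  · unfold asy; abel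
  · have h : ¬ (ad a b ∧ ad b c ∧ ad a c) := fun h => hab ⟨trivial, trivial, trivial, h⟩
    unfold asy
    rw [srt_zero ad r f a b c h,
      srt_zero ad r f b a c (fun h' => h ⟨hsymm _ _ h'.1, h'.2.2, h'.2.1⟩),
      srt_zero ad r f a c b (fun h' => h ⟨h'.2.2, hsymm _ _ h'.2.1, h'.1⟩),
      srt_zero ad r f c b a (fun h' => h ⟨hsymm _ _ h'.2.1, hsymm _ _ h'.1, hsymm _ _ h'.2.2⟩),
      srt_zero ad r f b c a (fun h' => h ⟨hsymm _ _ h'.2.2, h'.1, hsymm _ _ h'.2.1⟩),
      srt_zero ad r f c a b (fun h' => h ⟨h'.2.1, hsymm _ _ h'.2.2, hsymm _ _ h'.1⟩)]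
    simp
  · unfold asy
    exact N.add_mem (N.add_mem (N.sub_mem (N.sub_mem (N.sub_mem (hs _ _ _) (hs _ _ _)) (hs _ _ _))
      (hs _ _ _)) (hs _ _ _)) (hs _ _ _)

theorem asy_eq (ad : V → V → Prop) (hsymm : ∀ a b, ad a b → ad b a) (hirr : ∀ a, ¬ ad a a)
    (r : V → ℕ) (hr : Function.Injective r) (w : V → V → V → M) (hw : IsAlt3 ad Set.univ w)
    (a b c : V) : asy ad r (fun p => w p.1 p.2.1 p.2.2) a b c = w a b c := by
  obtain ⟨h1, h2, h3⟩ := hw
  by_cases h : ad a b ∧ ad b c ∧ ad a c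
  · obtain ⟨hab, hbc, hac⟩ := h
    have nab : r a ≠ r b := fun h => hirr a (by
      have := hr h; rw [← this] at hab; exact hab)
    have nbc : r b ≠ r c := fun h => hirr b (by
      have := hr h; rw [← this] at hbc; exact hbc)
    have nac : r a ≠ r c := fun h => hirr a (by
      have := hr h; rw [← this] at hac; exact hac)
    have hba := hsymm _ _ hab
    have hcb := hsymm _ _ hbc
    have hca := hsymm _ _ hac
    unfold asy
    rcases lt_or_gt_of_ne nab with l1 | l1 <;> rcases lt_or_gt_of_ne nbc with l2 | l2 <;>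
      rcases lt_or_gt_of_ne nac with l3 | l3
    · rw [srt_pos ad r _ a b c ⟨l1, l2⟩ ⟨hab, hbc, hac⟩, srt_ord ad r _ b a c (by omega),
        srt_ord ad r _ a c b (by omega), srt_ord ad r _ c b a (by omega),
        srt_ord ad r _ b c a (by omega), srt_ord ad r _ c a b (by omega)]
      simp
    · omega
    · rw [srt_ord ad r _ a b c (by omega), srt_ord ad r _ b a c (by omega),
        srt_pos ad r _ a c b ⟨l3, l2⟩ ⟨hac, hcb, hab⟩, srt_ord ad r _ c b a (by omega),
        srt_ord ad r _ b c a (by omega), srt_ord ad r _ c a b (by omega), h2 a b c]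
      simp
    · rw [srt_ord ad r _ a b c (by omega), srt_ord ad r _ b a c (by omega),
        srt_ord ad r _ a c b (by omega), srt_ord ad r _ c b a (by omega),
        srt_ord ad r _ b c a (by omega), srt_pos ad r _ c a b ⟨l3, l1⟩ ⟨hca, hab, hcb⟩,
        h2 a b c, h1 a c b]
      simp
    · rw [srt_ord ad r _ a b c (by omega), srt_pos ad r _ b a c ⟨l1, l3⟩ ⟨hba, hac, hbc⟩,
        srt_ord ad r _ a c b (by omega), srt_ord ad r _ c b a (by omega),
        srt_ord ad r _ b c a (by omega), srt_ord ad r _ c a b (by omega),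
        h1 a b c]
      simp
    · rw [srt_ord ad r _ a b c (by omega), srt_ord ad r _ b a c (by omega),
        srt_ord ad r _ a c b (by omega), srt_ord ad r _ c b a (by omega),
        srt_pos ad r _ b c a ⟨l2, l3⟩ ⟨hbc, hca, hba⟩, srt_ord ad r _ c a b (by omega),
        h1 a b c, h2 b a c]
      simp
    · omega
    · rw [srt_ord ad r _ a b c (by omega), srt_ord ad r _ b a c (by omega),
        srt_ord ad r _ a c b (by omega), srt_pos ad r _ c b a ⟨l2, l1⟩ ⟨hcb, hba, hca⟩,
        srt_ord ad r _ b c a (by omega), srt_ord ad r _ c a b (by omega),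
        h1 a b c, h2 b a c, h1 b c a]
      simp
  · rw [(asy_mem (R := ℤ) ad hsymm r ⊤ (fun p => w p.1 p.2.1 p.2.2) (fun _ => trivial)).1.2.2 a b c
      (fun h' => h h'.2.2.2), h3 a b c (fun h' => h h'.2.2.2)]

theorem srt_add (ad : V → V → Prop) (r : V → ℕ) (f f' : V × V × V → M) (a b c : V) :
    srt ad r (fun p => f p + f' p) a b c = srt ad r f a b c + srt ad r f' a b c := by
  unfold srt
  split_ifs
  · rfl
  · simp

theorem srt_smul (ad : V → V → Prop) (r : V → ℕ) (x : R) (f : V × V × V → M) (a b c : V) :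
    srt ad r (fun p => x • f p) a b c = x • srt ad r f a b c := by
  unfold srt
  split_ifs
  · rfl
  · simp

/-- antisymmetrization as a linear map -/
noncomputable def asyL (ad : V → V → Prop) (hsymm : ∀ a b, ad a b → ad b a) (r : V → ℕ)
    (N : Submodule R M) : (V × V × V → N) →ₗ[R] Alt3 ad N where
  toFun f := ⟨asy ad r (fun p => (f p : M)), asy_mem ad hsymm _ N _ (fun p => (f p).2)⟩
  map_add' f f' := by
    apply Subtype.ext
    funext a b c
    show asy ad r (fun p => (f p : M) + (f' p : M)) a b c =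
      asy ad r (fun p => (f p : M)) a b c + asy ad r (fun p => (f' p : M)) a b c
    unfold asy
    simp only [srt_add]
    abel
  map_smul' x f := by
    apply Subtype.ext
    funext a b c
    show asy ad r (fun p => x • (f p : M)) a b c = x • asy ad r (fun p => (f p : M)) a b c
    unfold asy
    simp only [srt_smul, smul_add, smul_sub]

/-- alternating 3-functions form a finitely generated module -/
theorem alt3_fg [Finite V] (ad : V → V → Prop) (hsymm : ∀ a b, ad a b → ad b a)
    (hirr : ∀ a, ¬ ad a a) (N : Submodule R M) (hN : FGF R N) : FPs R 1 (Alt3 ad N) := by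
  obtain ⟨n, ⟨e⟩⟩ := Finite.exists_equiv_fin V
  have hr : Function.Injective (fun v => ((e v : Fin n) : ℕ)) :=
    Fin.val_injective.comp e.injective
  have hF : FGF R (V × V × V → N) := FGF.pi hN
  have hg : Function.Surjective (asyL ad hsymm (fun v => ((e v : Fin n) : ℕ)) N) := by
    rintro ⟨w, hw1, hw2⟩
    refine ⟨fun p => ⟨w p.1 p.2.1 p.2.2, hw2 _ _ _⟩, ?_⟩
    apply Subtype.ext
    funext a b c
    exact asy_eq ad hsymm hirr _ hr w hw1 a b c
  exact FPs.quot _ hg trivial (FPs.of_fgf hF 1)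

end Alt

end Pool.Agent.Helper534_HC
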