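import Pool.Agent.Helper379_HC.Stmts
import Pool.Agent.W326.DU.Aug

/-!
# Slabs of a group ring as modules over the group ring of the kernel (HC, job Q3 of helper379)
-/

set_option autoImplicit false

namespace Pool.Agent.Helper534_HC

open Pool.Agent.W326.DU Pool.Agent.Y66.HC Pool.Agent.W386 Pool.Agent.Helper379_HC

section Ring
variable {A : Type} [Group A] (χ : A →* Multiplicative ℤ)

/-- the inclusion of group rings -/
noncomputable def phi : ZG χ.ker →+* ZG A := MonoidAlgebra.mapDomainRingHom ℤ χ.ker.subtype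

/-- the group ring of `A` as a module over that of the kernel -/
@[reducible] noncomputable def modK : Module (ZG χ.ker) (ZG A) := Module.compHom (ZG A) (phi χ)

attribute [local instance] modK

theorem smul_eq (c : ZG χ.ker) (x : ZG A) : c • x = phi χ c * x := rfl

theorem phi_of (q : χ.ker) : phi χ (MonoidAlgebra.of ℤ χ.ker q) = MonoidAlgebra.of ℤ A (q : A) := by
  simp [phi, MonoidAlgebra.of_apply]

theorem phi_coeff_mem (y : ZG χ.ker) (h : A) (hh : h ∈ χ.ker) :
    (phi χ y).coeff h = y.coeff ⟨h, hh⟩ := by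
  unfold phi
  rw [MonoidAlgebra.mapDomainRingHom_apply, MonoidAlgebra.coeff_mapDomain]
  exact Finsupp.mapDomain_apply χ.ker.subtype_injective _ (⟨h, hh⟩ : χ.ker)

theorem phi_coeff_notMem (y : ZG χ.ker) (h : A) (hh : h ∉ χ.ker) :
    (phi χ y).coeff h = 0 := by
  unfold phi
  rw [MonoidAlgebra.mapDomainRingHom_apply, MonoidAlgebra.coeff_mapDomain]
  apply Finsupp.mapDomain_of_notMem_range
  rintro ⟨b, hb⟩
  exact hh (hb ▸ b.2)

theorem Lev_zero (n : ℤ) : Lev χ n (0 : ZG A) := by
  intro g hg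
  exact absurd (by simp) hg

theorem Lev_add {n : ℤ} {x y : ZG A} (hx : Lev χ n x) (hy : Lev χ n y) : Lev χ n (x + y) := by
  intro g hg
  by_cases h : x.coeff g = 0
  · apply hy g
    intro h'
    apply hg
    simp [h, h']
  · exact hx g h

theorem Lev_zsmul {n : ℤ} (r : ℤ) {x : ZG A} (hx : Lev χ n x) : Lev χ n (r • x) := by
  intro g hg
  apply hx g
  intro h
  apply hg
  rw [MonoidAlgebra.coeff_smul, Finsupp.smul_apply, h, smul_zero]

theorem Lev_sum {n : ℤ} {ι : Type} (s : Finset ι) (f : ι → ZG A) (h : ∀ i ∈ s, Lev χ n (f i)) :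
    Lev χ n (∑ i ∈ s, f i) := by
  classical
  induction s using Finset.induction_on with
  | empty => simpa using Lev_zero χ n
  | insert a s ha ih =>
    rw [Finset.sum_insert ha]
    exact Lev_add χ (h a (Finset.mem_insert_self _ _))
      (ih (fun i hi => h i (Finset.mem_insert_of_mem hi)))

theorem Lev_phi_mul {n : ℤ} (c : ZG χ.ker) {x : ZG A} (hx : Lev χ n x) :
    Lev χ n (phi χ c * x) := by
  induction c using MonoidAlgebra.induction_on with
  | of q =>
    rw [phi_of]
    intro g hg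
    rw [MonoidAlgebra.of_apply, MonoidAlgebra.coeff_single_mul_apply, one_mul] at hg
    have h := hx _ hg
    have hq : χ (q : A) = 1 := q.2
    rw [map_mul, map_inv, hq, inv_one, one_mul] at h
    exact h
  | add a b ha hb =>
    rw [map_add, add_mul]
    exact Lev_add χ ha hb
  | smul r a ha =>
    rw [map_zsmul, smul_mul_assoc]
    exact Lev_zsmul χ r ha

/-- multiplication by `s - 1` on the right, `s` of level one -/
theorem Lev_mul_sub {n : ℤ} (s : A) (hs : χ s = Multiplicative.ofAdd 1) {x : ZG A}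
    (hx : Lev χ n x) : Lev χ (n + 1) (x * (MonoidAlgebra.of ℤ A s - 1)) := by
  intro g hg
  rw [mul_sub, mul_one, MonoidAlgebra.of_apply, MonoidAlgebra.coeff_sub, Finsupp.sub_apply,
    MonoidAlgebra.coeff_mul_single_apply, mul_one] at hg
  by_cases h : x.coeff g = 0
  · rw [h, sub_zero] at hg
    have h2 := hx _ hg
    rw [map_mul, map_inv, hs, toAdd_mul, toAdd_inv, toAdd_ofAdd] at h2
    omega
  · have := hx _ h
    omega

/-- the slab -/
def LevS (n : ℤ) : Submodule (ZG χ.ker) (ZG A) where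
  carrier := {x | Lev χ n x}
  zero_mem' := Lev_zero χ n
  add_mem' := Lev_add χ
  smul_mem' c _ hx := Lev_phi_mul χ c hx

theorem inj_mul (t : A) (i : ℕ) : Function.Injective (fun q : χ.ker => (q : A) * t ^ i) :=
  fun _ _ h => Subtype.ext (mul_right_cancel h)

/-- the coefficients at the level `i` -/
noncomputable def pk0 (t : A) (i : ℕ) : ZG A →+ ZG χ.ker :=
  MonoidAlgebra.comapDomainAddMonoidHom (fun q : χ.ker => (q : A) * t ^ i) (inj_mul χ t i)

theorem pk0_coeff (t : A) (i : ℕ) (x : ZG A) (q : χ.ker) :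
    (pk0 χ t i x).coeff q = x.coeff ((q : A) * t ^ i) := rfl

/-- the coefficients at the level `i`, as a linear map -/
noncomputable def pk (t : A) (i : ℕ) : ZG A →ₗ[ZG χ.ker] ZG χ.ker where
  toFun := pk0 χ t i
  map_add' := map_add _
  map_smul' c x := by
    rw [smul_eq, RingHom.id_apply, smul_eq_mul]
    induction c using MonoidAlgebra.induction_on with
    | of q =>
      rw [phi_of]
      apply MonoidAlgebra.ext
      ext a
      rw [pk0_coeff, MonoidAlgebra.of_apply, MonoidAlgebra.of_apply,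
        MonoidAlgebra.coeff_single_mul_apply, MonoidAlgebra.coeff_single_mul_apply, pk0_coeff]
      simp [mul_assoc]
    | add a b ha hb => rw [map_add, add_mul, add_mul, map_add, ha, hb]
    | smul r a ha => rw [map_zsmul, smul_mul_assoc, smul_mul_assoc, map_zsmul, ha]

theorem pk_coeff (t : A) (i : ℕ) (x : ZG A) (q : χ.ker) :
    (pk χ t i x).coeff q = x.coeff ((q : A) * t ^ i) := rfl

theorem pk_pow (t : A) (ht : χ t = Multiplicative.ofAdd 1) (i j : ℕ) :
    pk χ t i (MonoidAlgebra.of ℤ A (t ^ j)) = if i = j then 1 else 0 := by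
  classical
  have hpow : ∀ k : ℕ, χ (t ^ k) = Multiplicative.ofAdd (k : ℤ) := by
    intro k
    rw [map_pow, ht, ← ofAdd_nsmul]
    simp
  apply MonoidAlgebra.ext
  ext q
  rw [pk_coeff, MonoidAlgebra.of_apply, MonoidAlgebra.coeff_single, Finsupp.single_apply]
  by_cases hij : i = j
  · subst hij
    rw [if_pos rfl, MonoidAlgebra.one_def, MonoidAlgebra.coeff_single, Finsupp.single_apply]
    congr 1
    apply propext
    constructor
    · intro h
      apply Subtype.ext
      have : t ^ i = (q : A) * t ^ i := h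
      exact (mul_eq_right.mp this.symm).symm
    · intro h
      rw [← h]
      simp
  · rw [if_neg hij, if_neg]
    · rfl
    · intro h
      have h2 := congrArg χ h
      have hq : χ (q : A) = 1 := q.2
      rw [map_mul, hq, one_mul, hpow, hpow] at h2
      have h3 : (j : ℤ) = i := Multiplicative.ofAdd.injective h2
      exact hij (by exact_mod_cast h3.symm)

theorem pk_term (t : A) (ht : χ t = Multiplicative.ofAdd 1) (i j : ℕ) (c : ZG χ.ker) :
    pk χ t i (phi χ c * MonoidAlgebra.of ℤ A (t ^ j)) = if i = j then c else 0 := by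
  have h : phi χ c * MonoidAlgebra.of ℤ A (t ^ j) = c • MonoidAlgebra.of ℤ A (t ^ j) := rfl
  rw [h, map_smul, pk_pow χ t ht]
  split_ifs <;> simp

theorem Lev_term (t : A) (ht : χ t = Multiplicative.ofAdd 1) (n i : ℕ) (hi : i < n + 1)
    (c : ZG χ.ker) : Lev χ n (phi χ c * MonoidAlgebra.of ℤ A (t ^ i)) := by
  apply Lev_phi_mul
  intro g hg
  classical
  rw [MonoidAlgebra.of_apply, MonoidAlgebra.coeff_single, Finsupp.single_apply] at hg
  have h : t ^ i = g := by
    by_contra h
    rw [if_neg h] at hg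
    exact hg rfl
  rw [← h, map_pow, ht, ← ofAdd_nsmul, toAdd_ofAdd]
  simp only [nsmul_eq_mul, mul_one]
  omega

theorem decomp (t : A) (ht : χ t = Multiplicative.ofAdd 1) (n : ℕ) (x : ZG A)
    (hx : Lev χ n x) :
    ∑ i : Fin (n + 1), phi χ (pk χ t i x) * MonoidAlgebra.of ℤ A (t ^ (i : ℕ)) = x := by
  classical
  have hpow : ∀ k : ℕ, χ (t ^ k) = Multiplicative.ofAdd (k : ℤ) := by
    intro k
    rw [map_pow, ht, ← ofAdd_nsmul]
    simp
  apply MonoidAlgebra.ext
  ext g
  rw [MonoidAlgebra.coeff_sum, Finsupp.finsetSum_apply]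
  have hterm : ∀ i : Fin (n + 1),
      (phi χ (pk χ t i x) * MonoidAlgebra.of ℤ A (t ^ (i : ℕ))).coeff g =
      if Multiplicative.toAdd (χ g) = (i : ℕ) then x.coeff g else 0 := by
    intro i
    rw [MonoidAlgebra.of_apply, MonoidAlgebra.coeff_mul_single_apply, mul_one]
    have hmem : g * (t ^ (i : ℕ))⁻¹ ∈ χ.ker ↔ Multiplicative.toAdd (χ g) = ((i : ℕ) : ℤ) := by
      rw [MonoidHom.mem_ker, map_mul, map_inv, hpow, mul_inv_eq_one]
      rfl
    by_cases h : g * (t ^ (i : ℕ))⁻¹ ∈ χ.ker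
    · rw [phi_coeff_mem χ _ _ h, if_pos (hmem.mp h), pk_coeff]
      simp
    · rw [phi_coeff_notMem χ _ _ h, if_neg (fun h' => h (hmem.mpr h'))]
  simp only [hterm]
  by_cases h0 : x.coeff g = 0
  · simp [h0]
  · obtain ⟨h1, h2⟩ := hx g h0
    have hlt : (Multiplicative.toAdd (χ g)).toNat < n + 1 := by omega
    rw [Finset.sum_eq_single (⟨(Multiplicative.toAdd (χ g)).toNat, hlt⟩ : Fin (n + 1))]
    · rw [if_pos]
      simp only
      omega
    · intro b _ hb
      rw [if_neg]
      intro h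
      apply hb
      apply Fin.ext
      simp only
      omega
    · intro h
      exact absurd (Finset.mem_univ _) h

/-- the slab is free -/
noncomputable def slabEquiv (t : A) (ht : χ t = Multiplicative.ofAdd 1) (n : ℕ) :
    LevS χ n ≃ₗ[ZG χ.ker] (Fin (n + 1) → ZG χ.ker) where
  toFun x i := pk χ t i (x : ZG A)
  map_add' x y := by
    funext i
    exact map_add (pk χ t i) (x : ZG A) (y : ZG A)
  map_smul' c x := by
    funext i
    exact map_smul (pk χ t i) c (x : ZG A)
  invFun c := ⟨∑ i : Fin (n + 1), phi χ (c i) * MonoidAlgebra.of ℤ A (t ^ (i : ℕ)),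
    Lev_sum χ _ _ (fun i _ => Lev_term χ t ht n i i.2 (c i))⟩
  left_inv x := Subtype.ext (decomp χ t ht n x x.2)
  right_inv c := by
    funext i
    show pk χ t i (∑ j : Fin (n + 1), phi χ (c j) * MonoidAlgebra.of ℤ A (t ^ (j : ℕ))) = c i
    rw [map_sum]
    simp only [pk_term χ t ht]
    rw [Finset.sum_eq_single i]
    · simp
    · intro b _ hb
      rw [if_neg]
      intro h
      exact hb (Fin.ext h.symm)
    · intro h
      exact absurd (Finset.mem_univ _) h

theorem slab_fgf (t : A) (ht : χ t = Multiplicative.ofAdd 1) (n : ℕ) :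
    FGF (ZG χ.ker) (LevS χ n) := ⟨n + 1, ⟨slabEquiv χ t ht n⟩⟩

/-! ### augmentation -/

theorem augm_mul (G : Type) [Group G] (x y : ZG G) : augm G (x * y) = augm G x * augm G y :=
  map_mul (MonoidAlgebra.lift ℤ ℤ G (1 : G →* ℤ)) x y

theorem augm_of (G : Type) [Group G] (g : G) : augm G (MonoidAlgebra.of ℤ G g) = 1 := by
  simp [augm]

theorem augm_one (G : Type) [Group G] : augm G (1 : ZG G) = 1 :=
  map_one (MonoidAlgebra.lift ℤ ℤ G (1 : G →* ℤ))

theorem augm_phi (c : ZG χ.ker) : augm A (phi χ c) = augm χ.ker c := by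
  induction c using MonoidAlgebra.induction_on with
  | of q => rw [phi_of, augm_of, augm_of]
  | add a b ha hb => rw [map_add, map_add, map_add, ha, hb]
  | smul r a ha => rw [map_zsmul, map_zsmul, map_zsmul, ha]

theorem mem_augI (G : Type) [Group G] (x : ZG G) : x ∈ augI G ↔ augm G x = 0 := by
  constructor
  · intro h
    unfold augI IL at h
    induction h using Submodule.span_induction with
    | mem x hx =>
      obtain ⟨s, _, rfl⟩ := hx
      rw [map_sub, augm_of, augm_one, sub_self]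
    | zero => exact map_zero _
    | add x y _ _ hx hy => rw [map_add, hx, hy, add_zero]
    | smul b x _ hx => rw [smul_eq_mul, augm_mul, hx, mul_zero]
  · intro h
    exact aug_th G Set.univ Subgroup.closure_univ x h

/-- the elements of the slab of augmentation zero -/
def K0 : Submodule (ZG χ.ker) (ZG A) where
  carrier := {x | Lev χ 3 x ∧ augm A x = 0}
  zero_mem' := ⟨Lev_zero χ 3, map_zero _⟩
  add_mem' := by
    rintro x y ⟨hx1, hx2⟩ ⟨hy1, hy2⟩
    exact ⟨Lev_add χ hx1 hy1, by rw [map_add, hx2, hy2, add_zero]⟩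
  smul_mem' := by
    rintro c x ⟨hx1, hx2⟩
    exact ⟨Lev_phi_mul χ c hx1, by rw [smul_eq, augm_mul, hx2, mul_zero]⟩

/-- the coefficients at the levels `1, 2, 3` -/
noncomputable def pK (t : A) : K0 χ →ₗ[ZG χ.ker] (Fin 3 → ZG χ.ker) :=
  LinearMap.pi (fun i : Fin 3 => (pk χ t ((i : ℕ) + 1)) ∘ₗ (K0 χ).subtype)

theorem pK_apply (t : A) (x : K0 χ) (i : Fin 3) :
    pK χ t x i = pk χ t ((i : ℕ) + 1) (x : ZG A) := rfl

theorem pK_surj (t : A) (ht : χ t = Multiplicative.ofAdd 1) : Function.Surjective (pK χ t) := by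
  intro c
  let c' : Fin 4 → ZG χ.ker := Fin.cons (-((∑ i, augm χ.ker (c i)) • (1 : ZG χ.ker))) c
  let x : ZG A := ∑ i : Fin 4, phi χ (c' i) * MonoidAlgebra.of ℤ A (t ^ (i : ℕ))
  have hx : Lev χ 3 x := Lev_sum χ _ _ (fun i _ => Lev_term χ t ht 3 i i.2 (c' i))
  have ha : augm A x = 0 := by
    show augm A (∑ i : Fin 4, phi χ (c' i) * MonoidAlgebra.of ℤ A (t ^ (i : ℕ))) = 0
    rw [map_sum]
    have : ∀ i : Fin 4, augm A (phi χ (c' i) * MonoidAlgebra.of ℤ A (t ^ (i : ℕ))) =
        augm χ.ker (c' i) := by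
      intro i
      rw [augm_mul, augm_of, mul_one, augm_phi]
    simp only [this]
    rw [Fin.sum_univ_succ]
    simp only [c', Fin.cons_zero, Fin.cons_succ]
    rw [map_neg, map_zsmul, augm_one]
    simp
  refine ⟨⟨x, hx, ha⟩, ?_⟩
  funext i
  rw [pK_apply]
  show pk χ t ((i : ℕ) + 1) (∑ i : Fin 4, phi χ (c' i) * MonoidAlgebra.of ℤ A (t ^ (i : ℕ))) = c i
  rw [map_sum]
  simp only [pk_term χ t ht]
  rw [Finset.sum_eq_single i.succ]
  · rw [if_pos (by simp)]
    simp only [c', Fin.cons_succ]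
  · intro b _ hb
    rw [if_neg]
    intro h
    apply hb
    apply Fin.ext
    rw [← h]
    simp
  · intro h
    exact absurd (Finset.mem_univ _) h

/-- the kernel of `pK` is the augmentation ideal of the kernel -/
noncomputable def kerEquiv (t : A) (ht : χ t = Multiplicative.ofAdd 1) :
    LinearMap.ker (pK χ t) ≃ₗ[ZG χ.ker] augI χ.ker := by
  refine LinearEquiv.ofBijective
    (((pk χ t 0) ∘ₗ (K0 χ).subtype ∘ₗ (LinearMap.ker (pK χ t)).subtype).codRestrict _ ?_) ⟨?_, ?_⟩
  · rintro ⟨⟨x, hx1, hx2⟩, hx3⟩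
    rw [mem_augI]
    show augm χ.ker (pk χ t 0 x) = 0
    have hd := decomp χ t ht 3 x hx1
    rw [LinearMap.mem_ker] at hx3
    have h0 : ∀ i : Fin 3, pk χ t ((i : ℕ) + 1) x = 0 := fun i => congrFun hx3 i
    rw [Fin.sum_univ_succ] at hd
    simp only [Fin.val_succ, h0, map_zero, zero_mul, Finset.sum_const_zero, add_zero,
      Fin.val_zero, pow_zero, map_one, mul_one] at hd
    rw [← hd, augm_phi] at hx2
    exact hx2
  · rintro ⟨⟨x, hx1, hx2⟩, hx3⟩ ⟨⟨y, hy1, hy2⟩, hy3⟩ hxy
    have hxy' : pk χ t 0 x = pk χ t 0 y := congrArg Subtype.val hxy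
    rw [LinearMap.mem_ker] at hx3 hy3
    have h0 : ∀ i : Fin 3, pk χ t ((i : ℕ) + 1) x = 0 := fun i => congrFun hx3 i
    have h0' : ∀ i : Fin 3, pk χ t ((i : ℕ) + 1) y = 0 := fun i => congrFun hy3 i
    apply Subtype.ext
    apply Subtype.ext
    show x = y
    have hd := decomp χ t ht 3 x hx1
    have hd' := decomp χ t ht 3 y hy1
    rw [Fin.sum_univ_succ] at hd hd'
    simp only [Fin.val_succ, h0, map_zero, zero_mul, Finset.sum_const_zero, add_zero,
      Fin.val_zero, pow_zero, map_one, mul_one] at hd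
    simp only [Fin.val_succ, h0', map_zero, zero_mul, Finset.sum_const_zero, add_zero,
      Fin.val_zero, pow_zero, map_one, mul_one] at hd'
    rw [← hd, ← hd', hxy']
  · rintro ⟨c, hc⟩
    rw [mem_augI] at hc
    have hL : Lev χ 3 (phi χ c * MonoidAlgebra.of ℤ A (t ^ 0)) := Lev_term χ t ht 3 0 (by norm_num) c
    have ha : augm A (phi χ c * MonoidAlgebra.of ℤ A (t ^ 0)) = 0 := by
      rw [augm_mul, augm_phi, hc, zero_mul]
    refine ⟨⟨⟨phi χ c * MonoidAlgebra.of ℤ A (t ^ 0), hL, ha⟩, ?_⟩, ?_⟩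
    · rw [LinearMap.mem_ker]
      funext i
      rw [pK_apply]
      show pk χ t ((i : ℕ) + 1) (phi χ c * MonoidAlgebra.of ℤ A (t ^ 0)) = 0
      rw [pk_term χ t ht, if_neg (by omega)]
    · apply Subtype.ext
      show pk χ t 0 (phi χ c * MonoidAlgebra.of ℤ A (t ^ 0)) = c
      rw [pk_term χ t ht, if_pos rfl]

theorem augI_of_K0 (t : A) (ht : χ t = Multiplicative.ofAdd 1)
    (h : FPs (ZG χ.ker) 3 (K0 χ)) : FPs (ZG χ.ker) 3 (augI χ.ker) :=
  FPs.equiv (kerEquiv χ t ht) (FPs.of_ker_fgf (FGF.fin 3) (pK χ t) (pK_surj χ t ht) h)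

end Ring

end Pool.Agent.Helper534_HC
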