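import Pool.Agent.Helper534_HC.Alt
import Pool.Agent.Helper534_HC.Slab
import Pool.Agent.W304.DU.EX

/-!
# The kernel of `χ` is of type `FP_3` (HC, job Q3 of helper379)
-/

set_option autoImplicit false

namespace Pool.Agent.Helper534_HC

open Pool.Agent.W326.DU Pool.Agent.Y66.HC Pool.Agent.W386 Pool.Agent.Helper379_HC

section Cx
variable {V : Type} [Fintype V] (ad : V → V → Prop) (χ : RAAG ad →* Multiplicative ℤ)

attribute [local instance] modK

omit [Fintype V] in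
theorem Rg_apply (v : V) (x : ZG (RAAG ad)) :
    Rg ad v x = x * (MonoidAlgebra.of ℤ (RAAG ad) (gen ad v) - 1) := rfl

omit [Fintype V] in
theorem Rg_smul (v : V) (c : ZG χ.ker) (x : ZG (RAAG ad)) :
    Rg ad v (c • x) = c • Rg ad v x := by
  rw [Rg_apply, Rg_apply, smul_eq, smul_eq, mul_assoc]

omit [Fintype V] in
theorem augm_Rg (v : V) (x : ZG (RAAG ad)) : augm (RAAG ad) (Rg ad v x) = 0 := by
  rw [Rg_apply, augm_mul, map_sub, augm_of, augm_one, sub_self, mul_zero]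

variable (hχ : ∀ v, χ (gen ad v) = Multiplicative.ofAdd 1)

include hχ in
omit [Fintype V] in
theorem Lev_Rg (v : V) {n : ℤ} {x : ZG (RAAG ad)} (hx : Lev χ n x) :
    Lev χ (n + 1) (Rg ad v x) := Lev_mul_sub χ _ (hχ v) hx

/-- the differential in degree one -/
noncomputable def d1 : (V → LevS χ 2) →ₗ[ZG χ.ker] K0 χ where
  toFun y := ⟨∑ v, Rg ad v (y v : ZG (RAAG ad)),
    Lev_sum χ _ _ (fun v _ => Lev_Rg ad χ hχ v (y v).2), by
      rw [map_sum]
      exact Finset.sum_eq_zero (fun v _ => augm_Rg ad v _)⟩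
  map_add' x y := by
    apply Subtype.ext
    show ∑ v, Rg ad v ((x v : ZG (RAAG ad)) + (y v : ZG (RAAG ad))) =
      ∑ v, Rg ad v (x v : ZG (RAAG ad)) + ∑ v, Rg ad v (y v : ZG (RAAG ad))
    simp only [map_add, Finset.sum_add_distrib]
  map_smul' c x := by
    apply Subtype.ext
    show ∑ v, Rg ad v (c • (x v : ZG (RAAG ad))) = c • ∑ v, Rg ad v (x v : ZG (RAAG ad))
    simp only [Rg_smul, Finset.smul_sum]

variable (hR : Reg ad (Rg ad)) (hirr : ∀ a, ¬ ad a a)

/-- the differential in degree two -/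
noncomputable def d2 : Alt2 ad (LevS χ 1) →ₗ[ZG χ.ker] LinearMap.ker (d1 ad χ hχ) where
  toFun z := ⟨fun b => ⟨∑ a, Rg ad a (z.1 a b),
    Lev_sum χ _ _ (fun a _ => Lev_Rg ad χ hχ a (z.2.2 a b))⟩, by
      rw [LinearMap.mem_ker]
      apply Subtype.ext
      exact Pool.Agent.W304.DU.dd (Rg ad) hR hirr z.1 z.2.1.1
        (fun a b hab => z.2.1.2 a b (fun h => hab h.2.2))⟩
  map_add' x y := by
    apply Subtype.ext
    funext b
    apply Subtype.ext
    show ∑ a, Rg ad a (x.1 a b + y.1 a b) = ∑ a, Rg ad a (x.1 a b) + ∑ a, Rg ad a (y.1 a b)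
    simp only [map_add, Finset.sum_add_distrib]
  map_smul' c x := by
    apply Subtype.ext
    funext b
    apply Subtype.ext
    show ∑ a, Rg ad a (c • x.1 a b) = c • ∑ a, Rg ad a (x.1 a b)
    simp only [Rg_smul, Finset.smul_sum]

/-- the differential in degree three -/
noncomputable def d3 :
    Alt3 ad (LevS χ 0) →ₗ[ZG χ.ker] LinearMap.ker (d2 ad χ hχ hR hirr) where
  toFun w := ⟨⟨fun b c => ∑ a, Rg ad a (w.1 a b c), ⟨⟨fun b c => by
        rw [← Finset.sum_neg_distrib]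
        refine Finset.sum_congr rfl fun a _ => ?_
        rw [w.2.1.2.1 a b c, map_neg], fun b c hbc => by
        refine Finset.sum_eq_zero fun a _ => ?_
        rw [w.2.1.2.2 a b c (fun h => hbc ⟨trivial, trivial, h.2.2.2.2.1⟩), map_zero]⟩,
      fun b c => Lev_sum χ _ _ (fun a _ => Lev_Rg ad χ hχ a (w.2.2 a b c))⟩⟩, by
      rw [LinearMap.mem_ker]
      apply Subtype.ext
      funext c
      apply Subtype.ext
      exact Pool.Agent.W304.DU.dd (Rg ad) hR hirr (fun a b => w.1 a b c)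
        (fun a b => w.2.1.1 a b c)
        (fun a b hab => w.2.1.2.2 a b c (fun h => hab h.2.2.2.1))⟩
  map_add' x y := by
    apply Subtype.ext
    apply Subtype.ext
    funext b c
    show ∑ a, Rg ad a (x.1 a b c + y.1 a b c) =
      ∑ a, Rg ad a (x.1 a b c) + ∑ a, Rg ad a (y.1 a b c)
    simp only [map_add, Finset.sum_add_distrib]
  map_smul' r x := by
    apply Subtype.ext
    apply Subtype.ext
    funext b c
    show ∑ a, Rg ad a (r • x.1 a b c) = r • ∑ a, Rg ad a (x.1 a b c)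
    simp only [Rg_smul, Finset.smul_sum]

end Cx

section main

attribute [local instance] modK

/-- **Q3** -/
theorem q3 (hrx : PropRX) (hs : PropSlab) : PropQ3 := by
  intro V _ ad hG χ hχ
  obtain ⟨v0⟩ := hG.ne
  obtain ⟨s1, s2, s3⟩ := hs V ad hG χ hχ
  have hR := hrx V ad hG.symm hG.irr
  have ht := hχ v0
  have f0 : FGF (ZG χ.ker) (LevS χ 0) := slab_fgf χ _ ht 0
  have f1 : FGF (ZG χ.ker) (LevS χ 1) := slab_fgf χ _ ht 1
  have f2 : FGF (ZG χ.ker) (LevS χ 2) := slab_fgf χ _ ht 2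
  have g3 : FPs (ZG χ.ker) 1 (Alt3 ad (LevS χ 0)) := alt3_fg ad hG.symm hG.irr _ f0
  have g2 : FGF (ZG χ.ker) (Alt2 ad (LevS χ 1)) := alt2_fgf ad hG.symm hG.irr _ f1
  have g1 : FGF (ZG χ.ker) (V → LevS χ 2) := FGF.pi f2
  have e3 : Function.Surjective (d3 ad χ hχ hR hG.irr) := by
    rintro ⟨⟨z, hz1, hz2⟩, hz3⟩
    rw [LinearMap.mem_ker] at hz3
    have hz4 : ∀ b, ∑ a, Rg ad a (z a b) = 0 := by
      intro b
      have h := congrArg Subtype.val hz3
      exact congrArg Subtype.val (congrFun h b)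
    obtain ⟨w, hw1, hw2, hw3⟩ := s3 z hz1 hz2 hz4
    refine ⟨⟨w, hw1, hw2⟩, ?_⟩
    apply Subtype.ext
    apply Subtype.ext
    funext b c
    exact (hw3 b c).symm
  have e2 : Function.Surjective (d2 ad χ hχ hR hG.irr) := by
    rintro ⟨y, hy⟩
    rw [LinearMap.mem_ker] at hy
    have hy' : ∑ v, Rg ad v (y v : ZG (RAAG ad)) = 0 := congrArg Subtype.val hy
    obtain ⟨z, hz1, hz2, hz3⟩ := s2 (fun v => (y v : ZG (RAAG ad))) (fun v => (y v).2) hy'
    refine ⟨⟨z, hz1, hz2⟩, ?_⟩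
    apply Subtype.ext
    funext b
    apply Subtype.ext
    exact (hz3 b).symm
  have e1 : Function.Surjective (d1 ad χ hχ) := by
    rintro ⟨x, hx1, hx2⟩
    obtain ⟨y, hy1, hy2⟩ := s1 x hx1 hx2
    refine ⟨fun v => ⟨y v, hy1 v⟩, ?_⟩
    apply Subtype.ext
    exact hy2.symm
  have k2 : FPs (ZG χ.ker) 1 (LinearMap.ker (d2 ad χ hχ hR hG.irr)) := FPs.quot _ e3 trivial g3
  have k1 : FPs (ZG χ.ker) 2 (LinearMap.ker (d1 ad χ hχ)) := FPs.of_cover_aux g2 _ e2 k2
  have k0 : FPs (ZG χ.ker) 3 (K0 χ) := FPs.of_cover_aux g1 _ e1 k1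
  exact augI_of_K0 χ _ ht k0

end main

end Pool.Agent.Helper534_HC
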